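import Pool.Agent.H43.ALN.Defs

set_option autoImplicit false

namespace Pool.ALN43

open Finset

theorem mem_sl {r : ℕ} {A : Finset (Fin (r + 1) → ℕ)} {i : ℕ} {b : Fin r → ℕ} :
    b ∈ sl A i ↔ (Fin.cons i b : Fin (r + 1) → ℕ) ∈ A := by
  unfold sl
  rw [mem_image]
  constructor
  · rintro ⟨a, ha, rfl⟩
    rw [mem_filter] at ha
    rw [← ha.2, Fin.cons_self_tail]
    exact ha.1
  · intro h
    exact ⟨Fin.cons i b, mem_filter.2 ⟨h, Fin.cons_zero _ _⟩, Fin.tail_cons _ _⟩

theorem sl_mono {r : ℕ} {A B : Finset (Fin (r + 1) → ℕ)} (h : A ⊆ B) (i : ℕ) : sl A i ⊆ sl B i := by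
  intro b hb
  rw [mem_sl] at hb ⊢
  exact h hb

theorem comp_empty (r : ℕ) : Comp r ∅ = ∅ := by
  cases r with
  | zero => rfl
  | succ r => simp [Comp]

theorem mem_image_zero {r : ℕ} {A : Finset (Fin (r + 1) → ℕ)} {i : ℕ} {b : Fin r → ℕ}
    (h : b ∈ Comp r (sl A i)) : i ∈ A.image fun a => a 0 := by
  by_contra hn
  have : sl A i = ∅ := by
    rw [eq_empty_iff_forall_notMem]
    intro x hx
    rw [mem_sl] at hx
    exact hn (mem_image.2 ⟨_, hx, Fin.cons_zero _ _⟩)
  rw [this, comp_empty] at h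
  exact notMem_empty _ h

/-- The count, with any finite set of indices which is large enough. -/
theorem cnt_eq {r : ℕ} {A : Finset (Fin (r + 1) → ℕ)} {b : Fin r → ℕ} {I : Finset ℕ}
    (h : ∀ i, b ∈ Comp r (sl A i) → i ∈ I) :
    cnt A b = (I.filter fun i => b ∈ Comp r (sl A i)).card := by
  unfold cnt
  congr 1
  ext i
  rw [mem_filter, mem_filter]
  exact ⟨fun hi => ⟨h i hi.2, hi.2⟩, fun hi => ⟨mem_image_zero hi.2, hi.2⟩⟩

theorem mem_comp_cons {r : ℕ} {A : Finset (Fin (r + 1) → ℕ)} {j : ℕ} {b : Fin r → ℕ} :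
    (Fin.cons j b : Fin (r + 1) → ℕ) ∈ Comp (r + 1) A ↔ j < cnt A b := by
  rw [Comp, mem_biUnion]
  constructor
  · rintro ⟨b', -, h⟩
    rw [mem_image] at h
    obtain ⟨j', hj', he⟩ := h
    obtain ⟨rfl, rfl⟩ := Fin.cons_inj.1 he
    exact mem_range.1 hj'
  · intro h
    refine ⟨b, ?_, mem_image.2 ⟨j, mem_range.2 h, rfl⟩⟩
    have hc : 0 < cnt A b := by omega
    obtain ⟨i, hi⟩ := card_pos.1 hc
    rw [mem_filter] at hi
    exact mem_biUnion.2 ⟨i, hi⟩

theorem mem_comp_succ {r : ℕ} {A : Finset (Fin (r + 1) → ℕ)} {a : Fin (r + 1) → ℕ} :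
    a ∈ Comp (r + 1) A ↔ a 0 < cnt A (Fin.tail a) := by
  conv_lhs => rw [← Fin.cons_self_tail a]
  exact mem_comp_cons

theorem mem_sl_comp {r : ℕ} {A : Finset (Fin (r + 1) → ℕ)} {j : ℕ} {b : Fin r → ℕ} :
    b ∈ sl (Comp (r + 1) A) j ↔ j < cnt A b := by
  rw [mem_sl, mem_comp_cons]

theorem dg_cons {r : ℕ} (j : ℕ) (b : Fin r → ℕ) : dg (Fin.cons j b : Fin (r + 1) → ℕ) = j + dg b := by
  unfold dg
  rw [Fin.sum_univ_succ]
  simp

theorem dg_succ {r : ℕ} (a : Fin (r + 1) → ℕ) : dg a = a 0 + dg (Fin.tail a) := by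
  conv_lhs => rw [← Fin.cons_self_tail a]
  exact dg_cons _ _

theorem mono : ∀ (r : ℕ) {A B : Finset (Fin r → ℕ)}, A ⊆ B → Comp r A ⊆ Comp r B
  | 0, A, B, h => h
  | r + 1, A, B, h => by
      intro a ha
      rw [mem_comp_succ] at ha ⊢
      refine lt_of_lt_of_le ha (card_le_card ?_)
      intro i hi
      rw [mem_filter] at hi ⊢
      have := mono r (sl_mono h i) hi.2
      exact ⟨mem_image_zero this, this⟩

theorem cnt_mono {r : ℕ} {A B : Finset (Fin (r + 1) → ℕ)} (h : A ⊆ B) (b : Fin r → ℕ) :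
    cnt A b ≤ cnt B b := by
  refine card_le_card ?_
  intro i hi
  rw [mem_filter] at hi ⊢
  have := mono r (sl_mono h i) hi.2
  exact ⟨mem_image_zero this, this⟩

/-- Number of points = sum over the slices. -/
theorem card_sl {r : ℕ} (A : Finset (Fin (r + 1) → ℕ)) :
    A.card = ∑ i ∈ A.image fun a => a 0, (sl A i).card := by
  rw [card_eq_sum_card_image (fun a : Fin (r + 1) → ℕ => a 0) A]
  refine sum_congr rfl fun i _ => ?_
  unfold sl
  rw [card_image_of_injOn]
  intro a ha b hb hab
  have ha' := (mem_filter.1 (mem_coe.1 ha)).2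
  have hb' := (mem_filter.1 (mem_coe.1 hb)).2
  rw [← Fin.cons_self_tail a, ← Fin.cons_self_tail b, ha', hb']
  rw [hab]

theorem card_comp : ∀ (r : ℕ) (A : Finset (Fin r → ℕ)), (Comp r A).card = A.card
  | 0, A => rfl
  | r + 1, A => by
      set I := A.image fun a => a 0 with hI
      set U := I.biUnion fun i => Comp r (sl A i) with hU
      have h1 : (Comp (r + 1) A).card = ∑ b ∈ U, cnt A b := by
        rw [Comp, card_biUnion]
        · refine sum_congr rfl fun b _ => ?_
          rw [card_image_of_injective]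
          · rw [card_range]; rfl
          · intro j j' h
            exact (Fin.cons_inj.1 h).1
        · intro b _ b' _ hbb
          rw [Function.onFun, disjoint_left]
          intro x hx hx'
          rw [mem_image] at hx hx'
          obtain ⟨j, _, rfl⟩ := hx
          obtain ⟨j', _, h⟩ := hx'
          exact hbb (Fin.cons_inj.1 h).2.symm
      have h2 : ∑ b ∈ U, cnt A b = ∑ i ∈ I, (Comp r (sl A i)).card := by
        have := sum_card_bipartiteAbove_eq_sum_card_bipartiteBelow
          (s := U) (t := I) (fun b i => b ∈ Comp r (sl A i))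
        unfold bipartiteAbove bipartiteBelow at this
        rw [show (∑ b ∈ U, cnt A b) = ∑ b ∈ U, (I.filter fun i => b ∈ Comp r (sl A i)).card from rfl,
          this]
        refine sum_congr rfl fun i hi => ?_
        congr 1
        ext b
        rw [mem_filter]
        exact ⟨fun h => h.2, fun h => ⟨mem_biUnion.2 ⟨i, hi, h⟩, h⟩⟩
      rw [h1, h2, card_sl A]
      exact sum_congr rfl fun i _ => card_comp r _

theorem single_succ {r : ℕ} (k : Fin r) :
    (Pi.single k.succ 1 : Fin (r + 1) → ℕ) = Fin.cons 0 (Pi.single k 1) := by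
  ext i
  refine Fin.cases ?_ (fun i => ?_) i
  · simp [Pi.single_apply]
  · simp [Pi.single_apply]

theorem cons_add_single_succ {r : ℕ} (j : ℕ) (b : Fin r → ℕ) (k : Fin r) :
    (Fin.cons j b : Fin (r + 1) → ℕ) + Pi.single k.succ 1 = Fin.cons j (b + Pi.single k 1) := by
  rw [single_succ]
  ext i
  refine Fin.cases ?_ (fun i => ?_) i
  · simp
  · simp

theorem cons_add_single_zero {r : ℕ} (j : ℕ) (b : Fin r → ℕ) :
    (Fin.cons j b : Fin (r + 1) → ℕ) + Pi.single 0 1 = Fin.cons (j + 1) b := by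
  ext i
  refine Fin.cases ?_ (fun i => ?_) i
  · simp
  · simp [Pi.single_apply]

theorem dg_add_single {r : ℕ} (a : Fin r → ℕ) (k : Fin r) : dg (a + Pi.single k 1) = dg a + 1 := by
  unfold dg
  simp only [Pi.add_apply, sum_add_distrib]
  rw [Finset.sum_pi_single' k 1 univ]
  simp

/-- In terms of slices. -/
theorem dcl_succ {r : ℕ} {A : Finset (Fin (r + 1) → ℕ)} :
    Dcl A ↔ (∀ i, Dcl (sl A i)) ∧ ∀ i, sl A (i + 1) ⊆ sl A i := by
  constructor
  · intro h
    refine ⟨fun i b k hb => ?_, fun i b hb => ?_⟩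
    · rw [mem_sl] at hb ⊢
      rw [← cons_add_single_succ] at hb
      exact h _ _ hb
    · rw [mem_sl] at hb ⊢
      rw [← cons_add_single_zero] at hb
      exact h _ _ hb
  · rintro ⟨h1, h2⟩ a k
    rw [← Fin.cons_self_tail a]
    refine Fin.cases ?_ (fun k => ?_) k
    · intro h
      rw [cons_add_single_zero, ← mem_sl] at h
      exact mem_sl.1 (h2 _ h)
    · intro h
      rw [cons_add_single_succ, ← mem_sl] at h
      exact mem_sl.1 (h1 _ _ _ h)

theorem dcl_comp : ∀ (r : ℕ) (A : Finset (Fin r → ℕ)), Dcl (Comp r A)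
  | 0, A => fun _ k => k.elim0
  | r + 1, A => by
      rw [dcl_succ]
      refine ⟨fun i b k hb => ?_, fun i b hb => ?_⟩
      · rw [mem_sl_comp] at hb ⊢
        refine lt_of_lt_of_le hb (card_le_card ?_)
        intro l hl
        rw [mem_filter] at hl ⊢
        exact ⟨hl.1, dcl_comp r _ _ _ hl.2⟩
      · rw [mem_sl_comp] at hb ⊢
        omega

theorem sl_anti {r : ℕ} {A : Finset (Fin (r + 1) → ℕ)} (h : ∀ i, sl A (i + 1) ⊆ sl A i) :
    ∀ i j, i ≤ j → sl A j ⊆ sl A i := by
  intro i j hij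
  induction j, hij using Nat.le_induction with
  | base => exact Subset.refl _
  | succ j _ ih => exact (h j).trans ih

/-- a down-closed set of naturals is an initial segment -/
theorem card_filter_anti {P : ℕ → Prop} [DecidablePred P] {I : Finset ℕ} (hI : ∀ i, P i → i ∈ I)
    (hP : ∀ i, P (i + 1) → P i) (j : ℕ) : j < (I.filter P).card ↔ P j := by
  have hP' : ∀ i k, i ≤ k → P k → P i := by
    intro i k hik
    induction k, hik using Nat.le_induction with
    | base => exact id
    | succ k _ ih => exact fun h => ih (hP _ h)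
  constructor
  · intro h
    by_contra hn
    have : I.filter P ⊆ range j := by
      intro i hi
      rw [mem_filter] at hi
      rw [mem_range]
      by_contra hij
      exact hn (hP' _ _ (by omega) hi.2)
    have := card_le_card this
    rw [card_range] at this
    omega
  · intro h
    have : range (j + 1) ⊆ I.filter P := by
      intro i hi
      rw [mem_range] at hi
      have : P i := hP' _ _ (by omega) h
      exact mem_filter.2 ⟨hI _ this, this⟩
    have := card_le_card this
    rw [card_range] at this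
    omega

theorem comp_of_dcl : ∀ (r : ℕ) (A : Finset (Fin r → ℕ)), Dcl A → Comp r A = A
  | 0, A, _ => rfl
  | r + 1, A, h => by
      obtain ⟨h1, h2⟩ := dcl_succ.1 h
      ext a
      rw [mem_comp_succ]
      have hs : ∀ i, Comp r (sl A i) = sl A i := fun i => comp_of_dcl r _ (h1 i)
      have hc : cnt A (Fin.tail a) = ((A.image fun a => a 0).filter fun i => Fin.tail a ∈ sl A i).card := by
        unfold cnt
        congr 1
        ext i
        rw [mem_filter, mem_filter, hs]
      rw [hc, card_filter_anti (P := fun i => Fin.tail a ∈ sl A i)]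
      · rw [mem_sl, Fin.cons_self_tail]
      · intro i hi
        rw [mem_sl] at hi
        exact mem_image.2 ⟨_, hi, Fin.cons_zero _ _⟩
      · exact fun i hi => h2 i hi

theorem comp_eq_empty {r : ℕ} {A : Finset (Fin r → ℕ)} (h : A = ∅) : Comp r A = ∅ := by
  rw [h, comp_empty]

theorem mem_Del {r t : ℕ} {a : Fin r → ℕ} : a ∈ Del r t ↔ dg a < t := by
  unfold Del
  rw [mem_filter, Fintype.mem_piFinset]
  refine ⟨fun h => h.2, fun h => ⟨fun k => mem_range.2 (lt_of_le_of_lt ?_ h), h⟩⟩
  exact single_le_sum (f := a) (fun _ _ => Nat.zero_le _) (mem_univ k)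

theorem sl_Del {r t i : ℕ} : sl (Del (r + 1) t) i = Del r (t - i) := by
  ext b
  rw [mem_sl, mem_Del, mem_Del, dg_cons]
  omega

theorem dcl_Del (r t : ℕ) : Dcl (Del r t) := by
  intro a k h
  rw [mem_Del, dg_add_single] at h
  rw [mem_Del]
  omega

theorem comp_sub {r t : ℕ} {A : Finset (Fin r → ℕ)} (h : A ⊆ Del r t) : Comp r A ⊆ Del r t := by
  have := mono r h
  rwa [comp_of_dcl r _ (dcl_Del r t)] at this

end Pool.ALN43
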