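import Mathlib

/-!
# ALN: the process of removing fat points in any dimension (definitions)

Layers `Λ c` (`c = 0, 1, ...` the last exponent), each a finite set of exponents in `r` variables.
-/

set_option autoImplicit false

namespace Pool.ALN43

open Finset

/-- The degree. -/
def dg {r : ℕ} (a : Fin r → ℕ) : ℕ := ∑ i, a i

/-- The slice of `A` over the first coordinate `i`. -/
def sl {r : ℕ} (A : Finset (Fin (r + 1) → ℕ)) (i : ℕ) : Finset (Fin r → ℕ) :=
  (A.filter fun a => a 0 = i).image Fin.tail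

/-- Sort the sorted slices. -/
def Comp : (r : ℕ) → Finset (Fin r → ℕ) → Finset (Fin r → ℕ)
  | 0, A => A
  | r + 1, A => ((A.image fun a => a 0).biUnion fun i => Comp r (sl A i)).biUnion fun b =>
      (range ((A.image fun a => a 0).filter fun i => b ∈ Comp r (sl A i)).card).image
        fun j => (Fin.cons j b : Fin (r + 1) → ℕ)

/-- The number of slices whose sorted form contains `b`. -/
def cnt {r : ℕ} (A : Finset (Fin (r + 1) → ℕ)) (b : Fin r → ℕ) : ℕ :=
  ((A.image fun a => a 0).filter fun i => b ∈ Comp r (sl A i)).card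

/-- Closed under lowering a coordinate. -/
def Dcl {r : ℕ} (A : Finset (Fin r → ℕ)) : Prop :=
  ∀ (a : Fin r → ℕ) (k : Fin r), a + Pi.single k 1 ∈ A → a ∈ A

/-- The relation between consecutive layers. -/
def Shd {r : ℕ} (t : ℕ) (A B : Finset (Fin r → ℕ)) : Prop :=
  (∀ a ∈ A, dg a < t → a ∈ B) ∧ ∀ (a : Fin r → ℕ) (k : Fin r), a + Pi.single k 1 ∈ A → a ∈ B

/-- Number of earlier layers containing `a`. -/
def nu {r : ℕ} (L : ℕ → Finset (Fin r → ℕ)) (c : ℕ) (a : Fin r → ℕ) : ℕ :=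
  ((range c).filter fun c' => a ∈ L c').card

/-- The survivors of one point of multiplicity `m` in the layer `c`. -/
def srv {r : ℕ} (m : ℕ) (L : ℕ → Finset (Fin r → ℕ)) (c : ℕ) : Finset (Fin r → ℕ) :=
  (L c).filter fun a => m ≤ dg a + nu L c a

/-- One step. -/
def nxt {r : ℕ} (m : ℕ) (L : ℕ → Finset (Fin r → ℕ)) (c : ℕ) : Finset (Fin r → ℕ) :=
  Comp r (srv m L c)

/-- The simplex `{dg a < t}`. -/
def Del (r t : ℕ) : Finset (Fin r → ℕ) :=
  (Fintype.piFinset fun _ => range t).filter fun a => dg a < t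

/-- The full simplex: layer `c` is `{dg a + c ≤ D}`. -/
def Ful (r D : ℕ) (c : ℕ) : Finset (Fin r → ℕ) := Del r (D + 1 - c)

/-- The invariant of the process. -/
structure Inv {r : ℕ} (D : ℕ) (L : ℕ → Finset (Fin r → ℕ)) : Prop where
  sub : ∀ c, L c ⊆ Ful r D c
  dcl : ∀ c, Dcl (L c)
  shd : ∀ c, Shd (D - c) (L c) (L (c + 1))

/-- Cells of side `u`. -/
def cel {r : ℕ} (u : ℕ) (B : Finset (Fin r → ℕ)) : Finset (Fin r → ℕ) :=
  B.biUnion fun b => Fintype.piFinset fun k => Ico (u * b k) (u * b k + u)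

/-- A layer is fat if it contains the simplex of side `m`. -/
def Fat {r : ℕ} (m : ℕ) (L : ℕ → Finset (Fin r → ℕ)) (c : ℕ) : Prop := Del r m ⊆ L c

/-- The volume. -/
def vol {r : ℕ} (D : ℕ) (L : ℕ → Finset (Fin r → ℕ)) : ℕ := ∑ c ∈ range (D + 1), (L c).card

/-- The number of conditions of a point of multiplicity `m`. -/
def Kn (r m : ℕ) : ℕ := (Del (r + 1) m).card

/-! ### statements -/

/-- The main statement about the process. -/
def MainStmt : Prop :=
  ∀ r : ℕ, ∃ C : ℕ, ∀ m D s : ℕ, 1 ≤ m → (Del (r + 2) (D + 1)).card ≤ s * Kn (r + 1) m →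
    ∀ c, (nxt m)^[s + C] (Ful (r + 1) D) c = ∅

end Pool.ALN43
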